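import Mathlib

/-! A covering lemma for zonotopes generated by a union of `m` spanning families,
proved with effective resistances. -/

namespace Pool.Agent.Shared.ModOrient

open Matrix Finset

variable {ι E : Type*} [Fintype ι] [DecidableEq ι] [Fintype E] [DecidableEq E]

/-- weighted Gram matrix `A + ∑ c e • b e (b e)ᵀ` -/
noncomputable def Lap (A : Matrix ι ι ℝ) (b : E → ι → ℝ) (c : E → ℝ) : Matrix ι ι ℝ :=
  A + ∑ e, c e • vecMulVec (b e) (b e)

omit [DecidableEq ι] in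
lemma vecMulVec_mulVec' (u x : ι → ℝ) : vecMulVec u u *ᵥ x = (u ⬝ᵥ x) • u := by
  ext i
  simp [mulVec, dotProduct, vecMulVec_apply, Finset.mul_sum, mul_comm, mul_left_comm]

omit [DecidableEq ι] [DecidableEq E] in
lemma Lap_mulVec (A : Matrix ι ι ℝ) (b : E → ι → ℝ) (c : E → ℝ) (x : ι → ℝ) :
    Lap A b c *ᵥ x = A *ᵥ x + ∑ e, (c e * (b e ⬝ᵥ x)) • b e := by
  unfold Lap
  rw [add_mulVec, sum_mulVec]
  congr 1
  refine Finset.sum_congr rfl fun e _ => ?_
  rw [smul_mulVec, vecMulVec_mulVec', smul_smul]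

omit [DecidableEq ι] [DecidableEq E] in
lemma quad_Lap (A : Matrix ι ι ℝ) (b : E → ι → ℝ) (c : E → ℝ) (x : ι → ℝ) :
    x ⬝ᵥ (Lap A b c *ᵥ x) = x ⬝ᵥ (A *ᵥ x) + ∑ e, c e * (b e ⬝ᵥ x) ^ 2 := by
  rw [Lap_mulVec, dotProduct_add, dotProduct_sum]
  congr 1
  refine Finset.sum_congr rfl fun e _ => ?_
  rw [dotProduct_smul, dotProduct_comm x (b e), smul_eq_mul]
  ring

omit [Fintype ι] [DecidableEq ι] [DecidableEq E] in
lemma Lap_herm {A : Matrix ι ι ℝ} (hA : A.IsHermitian) (b : E → ι → ℝ) (c : E → ℝ) :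
    (Lap A b c).IsHermitian := by
  unfold Lap
  refine hA.add ?_
  ext i j
  simp [Matrix.sum_apply, vecMulVec_apply, mul_comm]

omit [Fintype ι] [DecidableEq ι] in
lemma Lap_update (A : Matrix ι ι ℝ) (b : E → ι → ℝ) (c : E → ℝ) (e : E) (t : ℝ) :
    Lap A b (Function.update c e (c e + t)) = Lap A b c + t • vecMulVec (b e) (b e) := by
  unfold Lap
  rw [add_assoc]
  congr 1
  rw [← Finset.add_sum_erase _ _ (Finset.mem_univ e), ← Finset.add_sum_erase _
    (fun e => c e • vecMulVec (b e) (b e)) (Finset.mem_univ e)]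
  have : ∑ x ∈ univ.erase e, Function.update c e (c e + t) x • vecMulVec (b x) (b x) =
      ∑ x ∈ univ.erase e, c x • vecMulVec (b x) (b x) := by
    refine Finset.sum_congr rfl fun x hx => ?_
    rw [Function.update_of_ne (Finset.ne_of_mem_erase hx)]
  rw [this, Function.update_self, add_smul]
  abel

lemma det_update {M : Matrix ι ι ℝ} (hM : M.PosDef) (v : ι → ℝ) (t : ℝ) :
    (M + t • vecMulVec v v).det = M.det * (1 + t * (v ⬝ᵥ (M⁻¹ *ᵥ v))) := by
  have hu : IsUnit M.det := isUnit_iff_ne_zero.mpr hM.det_pos.ne'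
  have h1 : t • vecMulVec v v = replicateCol Unit (t • v) * replicateRow Unit v := by
    rw [← vecMulVec_eq, smul_vecMulVec]
  rw [h1, det_add_replicateCol_mul_replicateRow hu]
  congr 1
  rw [det_unique]
  simp only [Matrix.add_apply, Matrix.one_apply_eq, Matrix.mul_apply, replicateRow_apply,
    replicateCol_apply, dotProduct, mulVec, Pi.smul_apply, smul_eq_mul, Finset.mul_sum,
    Finset.sum_mul]
  congr 1
  rw [Finset.sum_comm]
  refine Finset.sum_congr rfl fun i _ => Finset.sum_congr rfl fun j _ => ?_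
  ring

/-- effective resistance -/
noncomputable def Res (A : Matrix ι ι ℝ) (b : E → ι → ℝ) (c : E → ℝ) (e : E) : ℝ :=
  b e ⬝ᵥ ((Lap A b c)⁻¹ *ᵥ b e)

omit [DecidableEq ι] in
lemma quad_nonneg {M : Matrix ι ι ℝ} (hM : M.PosSemidef) (x : ι → ℝ) : 0 ≤ x ⬝ᵥ (M *ᵥ x) := by
  simpa using hM.dotProduct_mulVec_nonneg x

omit [DecidableEq E] in
lemma Res_nonneg {A : Matrix ι ι ℝ} {b : E → ι → ℝ} {c : E → ℝ} (h : (Lap A b c).PosDef)
    (e : E) : 0 ≤ Res A b c e :=
  quad_nonneg h.inv.posSemidef _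

lemma mulVec_inv {M : Matrix ι ι ℝ} (hM : M.PosDef) (x : ι → ℝ) : M *ᵥ (M⁻¹ *ᵥ x) = x := by
  have hu : IsUnit M.det := isUnit_iff_ne_zero.mpr hM.det_pos.ne'
  rw [mulVec_mulVec, mul_nonsing_inv _ hu, one_mulVec]

omit [DecidableEq E] in
lemma mul_Res_le_one {A : Matrix ι ι ℝ} (hA : A.PosSemidef) {b : E → ι → ℝ} {c : E → ℝ}
    (hc : ∀ e, 0 ≤ c e) (h : (Lap A b c).PosDef) (e : E) : c e * Res A b c e ≤ 1 := by
  set φ := (Lap A b c)⁻¹ *ᵥ b e with hφ
  have h1 : φ ⬝ᵥ (Lap A b c *ᵥ φ) = Res A b c e := by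
    rw [hφ, mulVec_inv h, dotProduct_comm]; rfl
  have h2 : b e ⬝ᵥ φ = Res A b c e := rfl
  rw [quad_Lap] at h1
  have h3 : c e * (b e ⬝ᵥ φ) ^ 2 ≤ ∑ f, c f * (b f ⬝ᵥ φ) ^ 2 :=
    Finset.single_le_sum (f := fun f => c f * (b f ⬝ᵥ φ) ^ 2)
      (fun f _ => mul_nonneg (hc f) (sq_nonneg _)) (Finset.mem_univ e)
  have h4 := quad_nonneg hA φ
  have h5 := Res_nonneg h e
  rw [h2] at h3
  rcases h5.eq_or_lt with h6 | h6
  · rw [← h6]; simp
  · have : c e * Res A b c e * Res A b c e ≤ 1 * Res A b c e := by nlinarith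
    exact le_of_mul_le_mul_right this h6

section
variable {m : ℕ} {A : Matrix ι ι ℝ} {b : E → ι → ℝ} {col : E → Fin m}

omit [DecidableEq ι] [DecidableEq E] in
lemma posDef_Lap (hA : A.PosSemidef)
    (hF : ∀ i x, x ⬝ᵥ (A *ᵥ x) = 0 → (∀ e, col e = i → b e ⬝ᵥ x = 0) → x = 0)
    (i : Fin m) {c : E → ℝ} (hc : ∀ e, 0 ≤ c e) (hci : ∀ e, col e = i → 0 < c e) :
    (Lap A b c).PosDef := by
  classical
  refine Matrix.PosDef.of_dotProduct_mulVec_pos (Lap_herm hA.1 b c) fun x hx => ?_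
  simp only [star_trivial]
  rw [quad_Lap]
  have h4 := quad_nonneg hA x
  have h3 : ∀ f ∈ (univ : Finset E), 0 ≤ c f * (b f ⬝ᵥ x) ^ 2 :=
    fun f _ => mul_nonneg (hc f) (sq_nonneg _)
  have h5 := Finset.sum_nonneg h3
  by_contra hcon
  have h6 : x ⬝ᵥ (A *ᵥ x) = 0 := by linarith
  have h7 : ∑ f, c f * (b f ⬝ᵥ x) ^ 2 = 0 := by linarith
  rw [Finset.sum_eq_zero_iff_of_nonneg h3] at h7
  refine hx (hF i x h6 fun e he => ?_)
  have := h7 e (Finset.mem_univ e)
  rcases mul_eq_zero.mp this with h | h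
  · exact absurd h (hci e he).ne'
  · exact pow_eq_zero_iff (two_ne_zero) |>.mp h

lemma det_lower (hA : A.PosSemidef)
    (hF : ∀ i x, x ⬝ᵥ (A *ᵥ x) = 0 → (∀ e, col e = i → b e ⬝ᵥ x = 0) → x = 0)
    (i : Fin m) {c : E → ℝ} (hc : ∀ e, 0 < c e) (hc1 : ∀ e, c e ≤ 1) :
    (Lap A b (fun e => if col e = i then 1 else 0)).det * ∏ e with col e = i, c e
      ≤ (Lap A b c).det := by
  have key : ∀ s : Finset E,
      (Lap A b (fun e => if col e = i then 1 else 0)).det * ∏ e ∈ s with col e = i, c e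
      ≤ (Lap A b (fun e => if e ∈ s then c e else if col e = i then 1 else 0)).det := by
    intro s
    induction s using Finset.induction_on with
    | empty => simp
    | insert a s ha ih =>
      set c' : E → ℝ := fun e => if e ∈ s then c e else if col e = i then 1 else 0 with hc'
      have hc'0 : ∀ e, 0 ≤ c' e := by
        intro e; simp only [hc']; split_ifs
        · exact (hc e).le
        · exact zero_le_one
        · exact le_rfl
      have hpd : (Lap A b c').PosDef := by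
        refine posDef_Lap hA hF i hc'0 fun e he => ?_
        simp only [hc']; split_ifs
        · exact hc e
        · exact zero_lt_one
      have hupd : (fun e => if e ∈ insert a s then c e else if col e = i then (1 : ℝ) else 0) =
          Function.update c' a (c' a + (c a - c' a)) := by
        funext e
        by_cases he : e = a
        · subst he; simp
        · rw [Function.update_of_ne he]; simp [hc', he]
      rw [hupd, Lap_update, det_update hpd]
      have hR := Res_nonneg hpd a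
      have hR1 := mul_Res_le_one hA hc'0 hpd a
      have hd := hpd.det_pos
      change _ ≤ _ * (1 + (c a - c' a) * Res A b c' a)
      by_cases hi : col a = i
      · have h1 : c' a = 1 := by simp [hc', ha, hi]
        rw [Finset.filter_insert, if_pos hi, Finset.prod_insert (by simp [ha])]
        rw [h1] at hR1 ⊢
        have h2 : c a ≤ 1 + (c a - 1) * Res A b c' a := by nlinarith [hc1 a]
        calc _ = (Lap A b (fun e => if col e = i then 1 else 0)).det *
              (∏ e ∈ s with col e = i, c e) * c a := by ring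
          _ ≤ (Lap A b c').det * c a := mul_le_mul_of_nonneg_right ih (hc a).le
          _ ≤ _ := mul_le_mul_of_nonneg_left h2 hd.le
      · have h1 : c' a = 0 := by simp [hc', ha, hi]
        rw [Finset.filter_insert, if_neg hi, h1]
        have h2 : 1 ≤ 1 + (c a - 0) * Res A b c' a := by nlinarith [hc a]
        calc _ ≤ (Lap A b c').det * 1 := by rw [mul_one]; exact ih
          _ ≤ _ := mul_le_mul_of_nonneg_left h2 hd.le
  simpa using key univ

lemma bern {x : ℝ} (h0 : 0 ≤ x) (h1 : x ≤ 1) (m : ℕ) : (1 - x) ^ m * (1 + m * x) ≤ 1 := by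
  have h2 : 1 + m * x ≤ (1 + x) ^ m := one_add_mul_le_pow (by linarith) m
  have h3 : (1 - x) ^ m * (1 + x) ^ m ≤ 1 := by
    rw [← mul_pow]
    exact pow_le_one₀ (by nlinarith) (by nlinarith)
  have h4 : 0 ≤ (1 - x) ^ m := pow_nonneg (by linarith) m
  nlinarith

lemma exists_conductance (hm : 0 < m) (hA : A.PosSemidef)
    (hF : ∀ i x, x ⬝ᵥ (A *ᵥ x) = 0 → (∀ e, col e = i → b e ⬝ᵥ x = 0) → x = 0)
    {ε : ℝ} (hε : 0 < ε) (hε1 : ε ≤ 1) :
    ∃ c : E → ℝ, (∀ e, 0 < c e) ∧ (∀ e, c e ≤ 1) ∧ ∀ e, m * (c e * Res A b c e) ≤ 1 + ε := by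
  have hpd : ∀ c : E → ℝ, (∀ e, 0 < c e) → (Lap A b c).PosDef := fun c hc =>
    posDef_Lap hA hF ⟨0, hm⟩ (fun e => (hc e).le) fun e _ => hc e
  set K : ℝ := ∏ i : Fin m, (Lap A b (fun e => if col e = i then 1 else 0)).det with hK
  have hκ : ∀ i : Fin m, 0 < (Lap A b (fun e => if col e = i then 1 else 0)).det := fun i =>
    (posDef_Lap hA hF i (fun e => by split_ifs <;> norm_num)
      (fun e he => by simp [he])).det_pos
  have hK0 : 0 < K := Finset.prod_pos fun i _ => hκ i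
  set Φ : (E → ℝ) → ℝ := fun c => (∏ e, c e) / (Lap A b c).det ^ m with hΦ
  set S : Set ℝ := {r | ∃ c : E → ℝ, (∀ e, 0 < c e) ∧ (∀ e, c e ≤ 1) ∧ Φ c = r} with hS
  have hΦpos : ∀ c : E → ℝ, (∀ e, 0 < c e) → 0 < Φ c := fun c hc =>
    div_pos (Finset.prod_pos fun e _ => hc e) (pow_pos (hpd c hc).det_pos m)
  have hbdd : BddAbove S := by
    refine ⟨1 / K, ?_⟩
    rintro r ⟨c, hc, hc1, rfl⟩
    have h1 : ∏ i : Fin m, ((Lap A b (fun e => if col e = i then 1 else 0)).det *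
        ∏ e with col e = i, c e) ≤ ∏ _i : Fin m, (Lap A b c).det :=
      Finset.prod_le_prod (fun i _ => mul_nonneg (hκ i).le
        (Finset.prod_nonneg fun e _ => (hc e).le)) fun i _ => det_lower hA hF i hc hc1
    rw [Finset.prod_mul_distrib, Finset.prod_fiberwise, Finset.prod_const, Finset.card_univ,
      Fintype.card_fin] at h1
    simp only [hΦ]
    rw [div_le_div_iff₀ (pow_pos (hpd c hc).det_pos m) hK0]
    linarith
  have hne : (Φ fun _ => 1) ∈ S := ⟨fun _ => 1, fun _ => one_pos, fun _ => le_rfl, rfl⟩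
  have hM : 0 < sSup S := lt_of_lt_of_le (hΦpos _ fun _ => one_pos) (le_csSup hbdd hne)
  set s : ℝ := ε / 4 with hs
  have hs0 : 0 < s := by positivity
  have hs1 : s ≤ 1 / 4 := by linarith
  have hlt : sSup S * (1 - s ^ 2) < sSup S := by nlinarith [mul_pos hM (pow_pos hs0 2)]
  obtain ⟨r, ⟨c, hc, hc1, rfl⟩, hr⟩ := exists_lt_of_lt_csSup ⟨_, hne⟩ hlt
  refine ⟨c, hc, hc1, fun e => ?_⟩
  by_contra hcon
  push Not at hcon
  set c' := Function.update c e (c e + -(s * c e)) with hc'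
  have hc'0 : ∀ f, 0 < c' f := by
    intro f
    by_cases hf : f = e
    · subst hf; simp only [hc', Function.update_self]; nlinarith [hc f]
    · simp only [hc', Function.update_of_ne hf]; exact hc f
  have hc'1 : ∀ f, c' f ≤ 1 := by
    intro f
    by_cases hf : f = e
    · subst hf; simp only [hc', Function.update_self]; nlinarith [hc f, hc1 f]
    · simp only [hc', Function.update_of_ne hf]; exact hc1 f
  have hle : Φ c' ≤ sSup S := le_csSup hbdd ⟨c', hc'0, hc'1, rfl⟩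
  have hdet : (Lap A b c').det = (Lap A b c).det * (1 - s * (c e * Res A b c e)) := by
    rw [hc', Lap_update, det_update (hpd c hc)]
    change _ * (1 + -(s * c e) * Res A b c e) = _
    ring
  have hprod : ∏ f, c' f = (∏ f, c f) * (1 - s) := by
    rw [hc', Finset.prod_update_of_mem (Finset.mem_univ e),
      ← Finset.mul_prod_erase _ _ (Finset.mem_univ e), Finset.sdiff_singleton_eq_erase]
    ring
  set p := c e * Res A b c e with hp
  have hp0 : 0 ≤ p := mul_nonneg (hc e).le (Res_nonneg (hpd c hc) e)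
  have hp1 : p ≤ 1 := mul_Res_le_one hA (fun f => (hc f).le) (hpd c hc) e
  have hx0 : 0 ≤ s * p := by positivity
  have hx1 : s * p < 1 := by nlinarith
  have hq : 0 < (1 - s * p) ^ m := pow_pos (by linarith) m
  have hd := pow_pos (hpd c hc).det_pos m
  have h1 : Φ c' * (1 - s * p) ^ m = Φ c * (1 - s) := by
    simp only [hΦ]
    rw [hdet, hprod, mul_pow]
    field_simp
  have h2 : sSup S * (1 - s ^ 2) * (1 - s) < sSup S * (1 - s * p) ^ m := by
    calc sSup S * (1 - s ^ 2) * (1 - s) < Φ c * (1 - s) :=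
          mul_lt_mul_of_pos_right hr (by linarith)
      _ = Φ c' * (1 - s * p) ^ m := h1.symm
      _ ≤ _ := mul_le_mul_of_nonneg_right hle hq.le
  have h3 : (1 - s ^ 2) * (1 - s) < (1 - s * p) ^ m := by
    rw [mul_assoc] at h2
    exact lt_of_mul_lt_mul_left h2 hM.le
  have h4 := bern hx0 hx1.le m
  have h5 : 1 + s + 4 * s ^ 2 ≤ 1 + m * (s * p) := by
    have : s * (1 + ε) ≤ s * (m * p) := mul_le_mul_of_nonneg_left hcon.le hs0.le
    have h6 : ε = 4 * s := by rw [hs]; ring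
    rw [h6] at this
    nlinarith
  have h6 : (1 - s ^ 2) * (1 - s) * (1 + s + 4 * s ^ 2) < 1 := by
    calc (1 - s ^ 2) * (1 - s) * (1 + s + 4 * s ^ 2)
        < (1 - s * p) ^ m * (1 + s + 4 * s ^ 2) := mul_lt_mul_of_pos_right h3 (by positivity)
      _ ≤ (1 - s * p) ^ m * (1 + m * (s * p)) := mul_le_mul_of_nonneg_left h5 hq.le
      _ ≤ 1 := h4
  have h7 : 1 + 2 * s ^ 2 ≤ (1 - s) * (1 + s + 4 * s ^ 2) := by nlinarith [pow_pos hs0 2]
  have h8 : 0 ≤ 1 - s ^ 2 := by nlinarith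
  have h9 : (1 - s ^ 2) * (1 + 2 * s ^ 2) ≤ (1 - s ^ 2) * ((1 - s) * (1 + s + 4 * s ^ 2)) :=
    mul_le_mul_of_nonneg_left h7 h8
  have h10 : s ^ 2 ≤ 1 / 16 := by nlinarith
  nlinarith [pow_pos hs0 2]

/-- Covering lemma. -/
theorem cover (hm : 0 < m) (hA : A.PosSemidef)
    (hF : ∀ i x, x ⬝ᵥ (A *ᵥ x) = 0 → (∀ e, col e = i → b e ⬝ᵥ x = 0) → x = 0)
    {ε : ℝ} (hε : 0 < ε) (hε1 : ε ≤ 1) (z₀ : ι → ℝ) :
    ∃ (k : E → ℤ) (φ : ι → ℝ) (g : E → ℝ), (∀ e, 2 * m * |g e| ≤ 1 + ε) ∧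
      z₀ + ∑ e, (k e : ℝ) • b e = A *ᵥ φ + ∑ e, g e • b e := by
  obtain ⟨c, hc, hc1, hp⟩ := exists_conductance hm hA hF (half_pos hε) (by linarith)
  have hpd : (Lap A b c).PosDef :=
    posDef_Lap hA hF ⟨0, hm⟩ (fun e => (hc e).le) fun e _ => hc e
  set N := (Lap A b c)⁻¹ with hN
  have hNpd : N.PosDef := hpd.inv
  have hsymm : ∀ x y : ι → ℝ, x ⬝ᵥ (N *ᵥ y) = y ⬝ᵥ (N *ᵥ x) := by
    intro x y
    have h1 : Nᵀ = N := by simpa using hNpd.1.eq
    rw [dotProduct_mulVec, ← mulVec_transpose, h1, dotProduct_comm]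
  set z : (E → ℤ) → ι → ℝ := fun k => z₀ + ∑ e, (k e : ℝ) • b e with hz
  set q : (E → ℤ) → ℝ := fun k => z k ⬝ᵥ (N *ᵥ z k) with hq
  have hbdd : BddBelow (Set.range q) := ⟨0, by
    rintro r ⟨k, rfl⟩
    exact quad_nonneg hNpd.posSemidef _⟩
  have hm' : (0 : ℝ) < m := by exact_mod_cast hm
  set η : ℝ := ε / (2 * m) with hη
  have hη0 : 0 < η := by positivity
  obtain ⟨r, ⟨k, rfl⟩, hk⟩ := exists_lt_of_csInf_lt (Set.range_nonempty q)
    (lt_add_of_pos_right _ hη0)
  have hmin : ∀ k', q k - η < q k' := fun k' => by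
    have := csInf_le hbdd ⟨k', rfl⟩
    linarith
  have hstep : ∀ (e : E) (a : ℤ), z (Function.update k e (k e + a)) = z k + (a : ℝ) • b e := by
    intro e a
    simp only [hz]
    rw [add_assoc]
    congr 1
    rw [← Finset.add_sum_erase _ _ (Finset.mem_univ e), ← Finset.add_sum_erase _
      (fun e => (k e : ℝ) • b e) (Finset.mem_univ e)]
    have : ∑ x ∈ univ.erase e, ((Function.update k e (k e + a) x : ℤ) : ℝ) • b x =
        ∑ x ∈ univ.erase e, (k x : ℝ) • b x := by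
      refine Finset.sum_congr rfl fun x hx => ?_
      rw [Function.update_of_ne (Finset.ne_of_mem_erase hx)]
    rw [this, Function.update_self, Int.cast_add, add_smul]
    abel
  have hqstep : ∀ (e : E) (a : ℤ), q (Function.update k e (k e + a)) =
      q k + 2 * a * (b e ⬝ᵥ (N *ᵥ z k)) + a ^ 2 * Res A b c e := by
    intro e a
    simp only [hq]
    rw [hstep, mulVec_add, mulVec_smul, add_dotProduct, dotProduct_add, dotProduct_add,
      smul_dotProduct, smul_dotProduct, dotProduct_smul, dotProduct_smul, hsymm (z k) (b e)]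
    simp only [smul_eq_mul]
    change _ = _ + _ + _ * (b e ⬝ᵥ (N *ᵥ b e))
    ring
  refine ⟨k, N *ᵥ z k, fun e => c e * (b e ⬝ᵥ (N *ᵥ z k)), fun e => ?_, ?_⟩
  · have h1 := hmin (Function.update k e (k e + 1))
    have h2 := hmin (Function.update k e (k e + -1))
    rw [hqstep] at h1 h2
    push_cast at h1 h2
    have h3 : |b e ⬝ᵥ (N *ᵥ z k)| ≤ (Res A b c e + η) / 2 := by
      rw [abs_le]; constructor <;> nlinarith
    rw [abs_mul, abs_of_pos (hc e)]
    have h4 : c e * |b e ⬝ᵥ (N *ᵥ z k)| ≤ c e * ((Res A b c e + η) / 2) :=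
      mul_le_mul_of_nonneg_left h3 (hc e).le
    have h5 : m * η = ε / 2 := by rw [hη]; field_simp
    have h6 : c e * η ≤ η := by nlinarith [hc1 e]
    have h7 := hp e
    calc 2 * m * (c e * |b e ⬝ᵥ (N *ᵥ z k)|) ≤ 2 * m * (c e * ((Res A b c e + η) / 2)) :=
          mul_le_mul_of_nonneg_left h4 (by positivity)
      _ = m * (c e * Res A b c e) + m * (c e * η) := by ring
      _ ≤ 1 + ε / 2 + m * η := by nlinarith
      _ = 1 + ε := by rw [h5]; ring
  · rw [← Lap_mulVec, hN, mulVec_inv hpd]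

end

end Pool.Agent.Shared.ModOrient
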