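import Mathlib
import Pool.Agent.Shared.ModOrient.Cover

/-! Orientations of multigraphs with prescribed out-degrees modulo `m`.
A multigraph is given by end maps `s t : E → V`; an orientation by the tail map `o : E → V`. -/

namespace Pool.Agent.Shared.ModOrient

open Matrix Finset

variable {V E : Type*} [Fintype V] [DecidableEq V] [Fintype E] [DecidableEq E]

omit [DecidableEq E] in
/-- Hakimi's theorem. -/
theorem hakimi (s t : E → V) (y : V → ℤ) (hsum : ∑ v, y v = Fintype.card E)
    (h : ∀ S : Finset V, (#{e | s e ∈ S ∧ t e ∈ S} : ℤ) ≤ ∑ v ∈ S, y v) :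
    ∃ o : E → V, (∀ e, o e = s e ∨ o e = t e) ∧ ∀ v, (#{e | o e = v} : ℤ) = y v := by
  classical
  have hy : ∀ v, 0 ≤ y v := fun v => by
    have := h {v}
    rw [Finset.sum_singleton] at this
    exact le_trans (Int.natCast_nonneg _) this
  set n : V → ℕ := fun v => (y v).toNat with hn
  have hny : ∀ v, (n v : ℤ) = y v := fun v => Int.toNat_of_nonneg (hy v)
  have hcard : ∀ S : Finset V, #{σ : (Σ v, Fin (n v)) | σ.1 ∈ S} = ∑ v ∈ S, n v := by
    intro S
    have : ({σ : (Σ v, Fin (n v)) | σ.1 ∈ S} : Finset _) = S.sigma fun _ => univ := by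
      ext σ; simp
    rw [this, Finset.card_sigma]
    simp
  let T : E → Finset (Σ v, Fin (n v)) := fun e => {σ | σ.1 = s e ∨ σ.1 = t e}
  have hall : ∀ X : Finset E, #X ≤ #(X.biUnion T) := by
    intro X
    set S : Finset V := X.image s ∪ X.image t with hS
    have h1 : X.biUnion T = univ.filter fun σ : (Σ v, Fin (n v)) => σ.1 ∈ S := by
      ext σ
      simp only [T, hS, Finset.mem_biUnion, Finset.mem_filter, Finset.mem_univ, true_and,
        Finset.mem_union, Finset.mem_image]
      constructor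
      · rintro ⟨e, he, h | h⟩
        · exact Or.inl ⟨e, he, h.symm⟩
        · exact Or.inr ⟨e, he, h.symm⟩
      · rintro (⟨e, he, h⟩ | ⟨e, he, h⟩)
        · exact ⟨e, he, Or.inl h.symm⟩
        · exact ⟨e, he, Or.inr h.symm⟩
    have h2 : X ⊆ univ.filter fun e => s e ∈ S ∧ t e ∈ S := by
      intro e he
      simp only [hS, Finset.mem_filter, Finset.mem_univ, true_and, Finset.mem_union,
        Finset.mem_image]
      exact ⟨Or.inl ⟨e, he, rfl⟩, Or.inr ⟨e, he, rfl⟩⟩
    have h3 := Finset.card_le_card h2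
    have h4 := h S
    rw [h1, hcard]
    have h5 : ((∑ v ∈ S, n v : ℕ) : ℤ) = ∑ v ∈ S, y v := by
      push_cast; exact Finset.sum_congr rfl fun v _ => hny v
    omega
  obtain ⟨f, hf, hfT⟩ := (Finset.all_card_le_biUnion_card_iff_exists_injective T).mp hall
  have hbij : Function.Bijective f := by
    rw [Fintype.bijective_iff_injective_and_card]
    refine ⟨hf, ?_⟩
    have h5 : ((∑ v, n v : ℕ) : ℤ) = ∑ v, y v := by
      push_cast; exact Finset.sum_congr rfl fun v _ => hny v
    rw [Fintype.card_sigma]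
    simp only [Fintype.card_fin]
    omega
  refine ⟨fun e => (f e).1, fun e => by simpa [T] using hfT e, fun v => ?_⟩
  rw [← hny v]
  have h1 := hcard {v}
  rw [Finset.sum_singleton] at h1
  rw [← h1]
  congr 1
  refine Finset.card_bij (fun e _ => f e) ?_ ?_ ?_
  · intro e he; simpa using he
  · intro a _ b _ hab; exact hf hab
  · intro σ hσ
    obtain ⟨e, rfl⟩ := hbij.2 σ
    exact ⟨e, by simpa using hσ, rfl⟩

omit [Fintype E] [DecidableEq E] in
lemma single_sub_dot (u v : V) (x : V → ℝ) :
    (Pi.single u (1 : ℝ) - Pi.single v 1 : V → ℝ) ⬝ᵥ x = x u - x v := by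
  rw [sub_dotProduct, single_dotProduct, single_dotProduct]; ring

omit [Fintype V] [Fintype E] [DecidableEq E] in
lemma sum_single_mem (u : V) (S : Finset V) :
    ∑ v ∈ S, (Pi.single u (1 : ℝ) : V → ℝ) v = if u ∈ S then 1 else 0 := by
  simp [Pi.single_apply, eq_comm]

/-- If the edges are split into `m` classes each of which connects all the vertices, then
there is an orientation with out-degrees prescribed modulo `m`. -/
theorem mod_orientation {m : ℕ} (hm : 0 < m) (s t : E → V) (col : E → Fin m)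
    (hconn : ∀ (i : Fin m) (x : V → ℝ), (∀ e, col e = i → x (s e) = x (t e)) →
      ∀ u v, x u = x v)
    (β : V → ℤ) (hβ : (m : ℤ) ∣ ∑ v, β v - Fintype.card E) :
    ∃ o : E → V, (∀ e, o e = s e ∨ o e = t e) ∧ ∀ v, (m : ℤ) ∣ (#{e | o e = v} : ℤ) - β v := by
  rcases isEmpty_or_nonempty V with hV | ⟨⟨v₀⟩⟩
  · exact ⟨s, fun e => Or.inl rfl, fun v => (hV.false v).elim⟩
  obtain ⟨a, ha⟩ := hβ
  set N : ℕ := Fintype.card E with hN
  set β' : V → ℤ := fun v => β v - if v = v₀ then m * a else 0 with hβ'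
  have hsum' : ∑ v, β' v = N := by
    simp only [hβ', Finset.sum_sub_distrib, Finset.sum_ite_eq', Finset.mem_univ, if_true]
    linarith
  set b : E → V → ℝ := fun e => Pi.single (s e) 1 - Pi.single (t e) 1 with hb
  set d : E → V → ℝ := fun e => Pi.single (s e) 1 + Pi.single (t e) 1 with hd
  set A : Matrix V V ℝ := vecMulVec (fun _ => 1) (fun _ => 1) with hA
  have hAp : A.PosSemidef := by
    simpa [hA] using posSemidef_vecMulVec_self_star (R := ℝ) (fun _ : V => (1 : ℝ))
  have hAx : ∀ x : V → ℝ, A *ᵥ x = fun _ => ∑ v, x v := by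
    intro x; rw [hA, vecMulVec_mulVec']; ext v; simp [dotProduct]
  have hcV : (0 : ℝ) < Fintype.card V := by
    exact_mod_cast Fintype.card_pos_iff.mpr ⟨v₀⟩
  have hF : ∀ i x, x ⬝ᵥ (A *ᵥ x) = 0 → (∀ e, col e = i → b e ⬝ᵥ x = 0) → x = 0 := by
    intro i x h1 h2
    have h3 := hconn i x fun e he => by
      have := h2 e he
      simp only [hb] at this
      rw [single_sub_dot] at this
      linarith
    rw [hAx] at h1
    have h4 : (∑ v, x v) * (∑ v, x v) = 0 := by
      rw [← h1, dotProduct, Finset.sum_mul]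
    have h5 : ∑ v, x v = 0 := mul_self_eq_zero.mp h4
    have h6 : ∑ v, x v = Fintype.card V * x v₀ := by
      rw [Finset.sum_congr rfl fun v _ => h3 v v₀]
      simp
    have h7 : x v₀ = 0 := by
      rw [h5] at h6
      rcases mul_eq_zero.mp h6.symm with h | h
      · exact absurd h hcV.ne'
      · exact h
    ext v; rw [h3 v v₀, h7]; rfl
  have hm' : (0 : ℝ) < m := by exact_mod_cast hm
  have hN0 : (0 : ℝ) ≤ N := Nat.cast_nonneg N
  obtain ⟨k, φ, g, hg, heq⟩ := cover hm hAp hF (ε := 1 / (N + 1)) (by positivity)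
    (by rw [div_le_one (by positivity)]; linarith)
    (fun v => ((β' v : ℝ) - (∑ e, d e v) / 2) / m)
  have hbS : ∀ e (S : Finset V), ∑ v ∈ S, b e v =
      (if s e ∈ S then 1 else 0) - (if t e ∈ S then 1 else 0) := by
    intro e S
    simp only [hb, Pi.sub_apply, Finset.sum_sub_distrib, sum_single_mem]
  have hdS : ∀ e (S : Finset V), ∑ v ∈ S, d e v =
      (if s e ∈ S then 1 else 0) + (if t e ∈ S then 1 else 0) := by
    intro e S
    simp only [hd, Pi.add_apply, Finset.sum_add_distrib, sum_single_mem]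
  have heqv : ∀ v, ((β' v : ℝ) - (∑ e, d e v) / 2) / m + ∑ e, (k e : ℝ) * b e v =
      (∑ w, φ w) + ∑ e, g e * b e v := by
    intro v
    have := congrFun heq v
    simpa [hAx, Finset.sum_apply] using this
  have hcomm : ∀ (c : E → ℝ) (S : Finset V), ∑ v ∈ S, ∑ e, c e * b e v =
      ∑ e, c e * ((if s e ∈ S then 1 else 0) - (if t e ∈ S then 1 else 0)) := by
    intro c S
    rw [Finset.sum_comm]
    exact Finset.sum_congr rfl fun e _ => by rw [← Finset.mul_sum, hbS]
  have hcommd : ∀ (S : Finset V), ∑ v ∈ S, ∑ e, d e v =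
      ∑ e, ((if s e ∈ S then (1 : ℝ) else 0) + (if t e ∈ S then 1 else 0)) := by
    intro S
    rw [Finset.sum_comm]
    exact Finset.sum_congr rfl fun e _ => hdS e S
  have hφ : ∑ w, φ w = 0 := by
    have h1 := Finset.sum_congr (rfl : (univ : Finset V) = univ) fun v _ => heqv v
    rw [Finset.sum_add_distrib, Finset.sum_add_distrib, hcomm, hcomm, ← Finset.sum_div,
      Finset.sum_sub_distrib, ← Finset.sum_div, hcommd] at h1
    have h2 : ∑ v, (β' v : ℝ) = N := by exact_mod_cast hsum'
    rw [h2] at h1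
    simp only [Finset.mem_univ, if_true, sub_self, mul_zero, Finset.sum_const_zero, add_zero,
      Finset.sum_const, Finset.card_univ, nsmul_eq_mul, ← hN] at h1
    have h3 : ((N : ℝ) - N * (1 + 1) / 2) / m = 0 := by ring
    rw [h3] at h1
    rcases mul_eq_zero.mp h1.symm with h | h
    · exact absurd h hcV.ne'
    · exact h
  set y : V → ℤ := fun v => β' v + m * ∑ e, k e *
    ((if s e = v then 1 else 0) - (if t e = v then 1 else 0)) with hy
  have hyr : ∀ v, (y v : ℝ) = (∑ e, d e v) / 2 + m * ∑ e, g e * b e v := by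
    intro v
    have h1 := heqv v
    rw [hφ, zero_add] at h1
    have h2 : (y v : ℝ) = β' v + m * ∑ e, (k e : ℝ) * b e v := by
      simp only [hy, hb]
      push_cast
      congr 2
      refine Finset.sum_congr rfl fun e _ => ?_
      simp [Pi.single_apply, eq_comm]
    rw [h2, ← h1]
    field_simp
    ring
  have hyS : ∀ S : Finset V, ((∑ v ∈ S, y v : ℤ) : ℝ) =
      ∑ e, (((if s e ∈ S then (1 : ℝ) else 0) + (if t e ∈ S then 1 else 0)) / 2 +
        m * (g e * ((if s e ∈ S then 1 else 0) - (if t e ∈ S then 1 else 0)))) := by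
    intro S
    push_cast
    rw [Finset.sum_congr rfl fun v _ => hyr v, Finset.sum_add_distrib, ← Finset.sum_div,
      ← Finset.mul_sum, hcomm, hcommd, Finset.sum_div, Finset.mul_sum, ← Finset.sum_add_distrib]
  obtain ⟨o, ho, hoy⟩ := hakimi s t y (by
      have := hyS univ
      simp only [Finset.mem_univ, if_true, sub_self, mul_zero, add_zero, Finset.sum_const,
        Finset.card_univ, nsmul_eq_mul] at this
      have h2 : ((∑ v, y v : ℤ) : ℝ) = ((Fintype.card E : ℤ) : ℝ) := by
        rw [this]; push_cast; ring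
      exact_mod_cast h2) (by
      intro S
      have h1 := hyS S
      have h2 : ∀ e, (if s e ∈ S ∧ t e ∈ S then (1 : ℝ) else 0) - 1 / (2 * (N + 1)) ≤
          ((if s e ∈ S then (1 : ℝ) else 0) + (if t e ∈ S then 1 else 0)) / 2 +
            m * (g e * ((if s e ∈ S then 1 else 0) - (if t e ∈ S then 1 else 0))) := by
        intro e
        have h3 := hg e
        have h4 : 1 / (2 * ((N : ℝ) + 1)) = 1 / (N + 1) / 2 := by field_simp
        have h5 : (0 : ℝ) < 1 / (N + 1) := by positivity
        have h6 : m * g e ≤ m * |g e| := mul_le_mul_of_nonneg_left (le_abs_self _) hm'.le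
        have h7 : m * (-g e) ≤ m * |g e| := mul_le_mul_of_nonneg_left (neg_le_abs _) hm'.le
        rw [h4]
        by_cases hs : s e ∈ S <;> by_cases ht : t e ∈ S <;> simp only [hs, ht, if_true, if_false,
          and_true, and_false] <;> nlinarith
      have h3 := Finset.sum_le_sum fun e (_ : e ∈ (univ : Finset E)) => h2 e
      rw [← h1, Finset.sum_sub_distrib, Finset.sum_boole] at h3
      simp only [Finset.sum_const, Finset.card_univ, nsmul_eq_mul, ← hN] at h3
      have h4 : (N : ℝ) * (1 / (2 * (N + 1))) < 1 := by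
        rw [mul_one_div, div_lt_one (by positivity)]; linarith
      have h5 : ((#{e | s e ∈ S ∧ t e ∈ S} : ℤ) : ℝ) < ((∑ v ∈ S, y v + 1 : ℤ) : ℝ) := by
        rw [Int.cast_add, Int.cast_one, Int.cast_natCast]; linarith
      have h6 : (#{e | s e ∈ S ∧ t e ∈ S} : ℤ) < ∑ v ∈ S, y v + 1 := by exact_mod_cast h5
      omega)
  refine ⟨o, ho, fun v => ?_⟩
  rw [hoy v]
  simp only [hy, hβ']
  generalize (∑ e, k e * ((if s e = v then 1 else 0) - (if t e = v then 1 else 0))) = w
  split_ifs
  · exact ⟨w - a, by ring⟩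
  · exact ⟨w, by ring⟩

end Pool.Agent.Shared.ModOrient
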